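import Mathlib
import Pool.Agent.N943.RC.Stm

/-!
# RC / D4 : the core set
-/

set_option autoImplicit false

namespace N50.RC

open Finset N943.RC Pool.Agent.R980
open scoped Classical

variable {n R : ℕ}

/-- number of labelled neighbours of `a` in `C` -/
noncomputable def dg (x : LE n R → Bool) (C : Finset (Fin n)) (a : Fin n) : ℕ :=
  (univ.filter fun p : Fin R × Fin n => p.2 ∈ C ∧ Lab x p.1 a p.2).card

/-- labelled edges inside `S` -/
noncomputable def F (x : LE n R → Bool) (S : Finset (Fin n)) : Finset (LE n R) :=
  univ.filter fun e : LE n R => x e = true ∧ ∀ a ∈ e.1.1, a ∈ S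

theorem lcount_eq (x : LE n R → Bool) (S : Finset (Fin n)) : lcount x S = (F x S).card := rfl

theorem labels_le_dg (x : LE n R → Bool) (C : Finset (Fin n)) (a : Fin n) :
    (univ.filter fun i : Fin R => ∃ u ∈ C, Lab x i a u).card ≤ dg x C a := by
  unfold dg
  calc (univ.filter fun i : Fin R => ∃ u ∈ C, Lab x i a u).card
      ≤ ((univ.filter fun p : Fin R × Fin n => p.2 ∈ C ∧ Lab x p.1 a p.2).image Prod.fst).card := by
        apply card_le_card
        intro i hi
        simp only [mem_filter, mem_univ, true_and] at hi
        obtain ⟨u, hu, hl⟩ := hi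
        simp only [mem_image, mem_filter, mem_univ, true_and]
        exact ⟨(i, u), ⟨hu, hl⟩, rfl⟩
    _ ≤ _ := card_image_le

theorem dg_le (x : LE n R → Bool) (C D : Finset (Fin n)) (a : Fin n) (ha : a ∈ D) (hCD : C ⊆ D) :
    dg x C a ≤ ((F x D).filter fun e => a ∈ e.1.1).card := by
  unfold dg
  set A := univ.filter fun p : Fin R × Fin n => p.2 ∈ C ∧ Lab x p.1 a p.2 with hA
  have hp : ∀ p ∈ A, ¬ (s(a, p.2) : Sym2 (Fin n)).IsDiag := by
    intro p hp
    simp only [hA, mem_filter] at hp
    exact hp.2.2.choose
  rw [← card_attach]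
  have hinj : Function.Injective
      (fun p : {p // p ∈ A} => ((⟨s(a, p.1.2), hp p.1 p.2⟩, p.1.1) : LE n R)) := by
    rintro ⟨⟨i, u⟩, h1⟩ ⟨⟨j, w⟩, h2⟩ h
    simp only [Prod.mk.injEq, Subtype.mk.injEq] at h
    obtain ⟨h3, h4⟩ := h
    have h5 : u = w := by simpa using Sym2.congr_right.1 h3
    subst h4; subst h5; rfl
  rw [← card_image_of_injective _ hinj]
  apply card_le_card
  intro e he
  simp only [mem_image, mem_attach, true_and] at he
  obtain ⟨⟨⟨i, u⟩, h1⟩, rfl⟩ := he
  have h1' := h1
  simp only [hA, mem_filter, mem_univ, true_and] at h1'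
  obtain ⟨hu, hd, hx⟩ := h1'
  simp only [F, mem_filter, mem_univ, true_and]
  refine ⟨⟨hx, ?_⟩, by simp⟩
  intro b hb
  simp only [Sym2.mem_iff] at hb
  rcases hb with rfl | rfl
  · exact ha
  · exact hCD hu

theorem lcount_insert (x : LE n R → Bool) (C : Finset (Fin n)) (a : Fin n) (ha : a ∉ C) :
    lcount x C + dg x C a ≤ lcount x (insert a C) := by
  rw [lcount_eq, lcount_eq, ← card_filter_add_card_filter_not (s := F x (insert a C))
    (fun e => a ∈ e.1.1)]
  have h1 := dg_le x C (insert a C) a (mem_insert_self a C) (subset_insert a C)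
  have h2 : (F x C).card ≤ ((F x (insert a C)).filter fun e => ¬ a ∈ e.1.1).card := by
    apply card_le_card
    intro e he
    simp only [F, mem_filter, mem_univ, true_and] at he ⊢
    exact ⟨⟨he.1, fun b hb => mem_insert_of_mem (he.2 b hb)⟩, fun h => ha (he.2 a h)⟩
  omega

theorem handshake (x : LE n R → Bool) (W : Finset (Fin n)) :
    ∑ a ∈ W, dg x W a ≤ 2 * lcount x W := by
  calc ∑ a ∈ W, dg x W a ≤ ∑ a ∈ W, ((F x W).filter fun e => a ∈ e.1.1).card :=
        sum_le_sum fun a ha => dg_le x W W a ha (Subset.refl W)
    _ = ∑ e ∈ F x W, (W.filter fun a => a ∈ e.1.1).card := by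
        simp only [card_filter]
        exact sum_comm
    _ ≤ ∑ e ∈ F x W, 2 := by
        refine sum_le_sum fun e _ => ?_
        obtain ⟨⟨e, he⟩, i⟩ := e
        induction e using Sym2.ind with
        | _ p q =>
          refine le_trans (card_le_card (t := {p, q}) ?_) card_le_two
          intro b hb
          simp only [mem_filter, Sym2.mem_iff] at hb
          simpa using hb.2
    _ = 2 * lcount x W := by rw [sum_const, smul_eq_mul, mul_comm, lcount_eq]

theorem core : N943.RC.Core := by
  intro n R s x Bad hR hBad hsp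
  set P : Finset (Finset (Fin n)) := univ.filter fun C =>
    Bad ⊆ C ∧ C.card ≤ s ∧ R * C.card ≤ 4 * lcount x C + R * Bad.card with hP
  have hPne : P.Nonempty := by
    refine ⟨Bad, ?_⟩
    simp only [hP, mem_filter, mem_univ, true_and]
    exact ⟨Subset.refl _, by omega, by omega⟩
  obtain ⟨C, hC, hmax⟩ := exists_max_image P Finset.card hPne
  have hC' := hC
  simp only [hP, mem_filter, mem_univ, true_and] at hC'
  obtain ⟨hBC, hCs, hCl⟩ := hC'
  have hdeg : ∀ a, a ∉ C → 4 * dg x C a < R := by
    intro a ha
    by_contra hcon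
    push Not at hcon
    have hins := lcount_insert x C a ha
    have hcard : (insert a C).card = C.card + 1 := card_insert_of_notMem ha
    by_cases hlt : C.card + 1 ≤ s
    · have hmem : insert a C ∈ P := by
        simp only [hP, mem_filter, mem_univ, true_and]
        refine ⟨hBC.trans (subset_insert a C), by omega, ?_⟩
        rw [hcard, mul_add, mul_one]
        omega
      have := hmax _ hmem
      omega
    · have hCe : C.card = s := by omega
      rcases Nat.eq_zero_or_pos s with h0 | h0
      · have hCz : C = ∅ := by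
          rw [← card_eq_zero]; omega
        have : dg x C a = 0 := by
          simp [dg, hCz]
        omega
      · have hne : C.Nonempty := by
          rw [← card_pos]; omega
        have h1 := hsp C hne hCs
        have h2 : R * (2 * Bad.card) ≤ R * C.card := Nat.mul_le_mul_left R (by omega)
        have h3 : R * (2 * Bad.card) = 2 * (R * Bad.card) := by ring
        omega
  refine ⟨univ \ C, ?_, ?_⟩
  · have := card_sdiff_add_card_inter (univ : Finset (Fin n)) C
    rw [univ_inter, card_univ, Fintype.card_fin] at this
    omega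
  · intro W hW hlab
    by_contra hdis
    rw [disjoint_iff_inter_eq_empty] at hdis
    set W' := W ∩ (univ \ C) with hW'
    have hne : W'.Nonempty := nonempty_iff_ne_empty.2 hdis
    have hWc : W'.card ≤ s := (card_le_card inter_subset_left).trans hW
    have h8 := hsp W' hne hWc
    have hbig : ∀ a ∈ W', R + 1 ≤ 4 * dg x W' a := by
      intro a ha
      have ha1 : a ∈ W := (mem_inter.1 ha).1
      have ha2 : a ∉ C := by
        have := (mem_inter.1 ha).2
        simp only [mem_sdiff, mem_univ, true_and] at this
        exact this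
      have h1 := hlab a ha1 (fun h => ha2 (hBC h))
      have h2 := hdeg a ha2
      have h3 : (univ.filter fun i : Fin R => ∃ u ∈ W, Lab x i a u).card ≤
          (univ.filter fun i : Fin R => ∃ u ∈ C, Lab x i a u).card +
          (univ.filter fun i : Fin R => ∃ u ∈ W', Lab x i a u).card := by
        refine le_trans (card_le_card ?_) (card_union_le _ _)
        intro i hi
        simp only [mem_filter, mem_univ, true_and, mem_union] at hi ⊢
        obtain ⟨u, hu, hl⟩ := hi
        by_cases huC : u ∈ C
        · exact Or.inl ⟨u, huC, hl⟩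
        · refine Or.inr ⟨u, ?_, hl⟩
          rw [hW', mem_inter]
          exact ⟨hu, by simp [huC]⟩
      have h4 := labels_le_dg x C a
      have h5 := labels_le_dg x W' a
      omega
    have hsum : ∑ a ∈ W', (R + 1) ≤ ∑ a ∈ W', 4 * dg x W' a := sum_le_sum hbig
    rw [sum_const, smul_eq_mul, ← mul_sum] at hsum
    have hh := handshake x W'
    have : W'.card * (R + 1) = R * W'.card + W'.card := by ring
    omega

end N50.RC
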