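import Mathlib
import Pool.Agent.N943.RC.Stm

/-!
# RC / P6 : union of independent copies of `G(n,q)`, monotonicity in `p`
-/

set_option autoImplicit false

namespace N50.RC

open Finset N943.RC Pool.Agent.R980
open scoped Classical

/-- push forward of a product measure under a coordinatewise map -/
theorem push {E κ : Type} [Fintype E] [DecidableEq E] [Fintype κ] (w : κ → ℝ) (T : κ → Bool)
    (F : (E → Bool) → ℝ) :
    ∑ x : E → κ, (∏ e, w (x e)) * F (fun e => T (x e)) =
      ∑ y : E → Bool, (∏ e, ∑ k ∈ univ.filter (fun k => T k = y e), w k) * F y := by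
  rw [← sum_fiberwise (s := univ) (g := fun x : E → κ => (fun e => T (x e)))]
  refine sum_congr rfl fun y _ => ?_
  rw [prod_univ_sum, sum_mul]
  have hset : (univ.filter fun x : E → κ => (fun e => T (x e)) = y) =
      Fintype.piFinset (fun e => univ.filter (fun k => T k = y e)) := by
    ext x
    simp only [mem_filter, mem_univ, true_and, Fintype.mem_piFinset]
    exact funext_iff
  rw [← hset]
  refine sum_congr rfl fun x hx => ?_
  rw [mem_filter] at hx
  rw [hx.2]

/-- Bernoulli weight of one bit -/
noncomputable def w1 (p : ℝ) (b : Bool) : ℝ := if b then p else 1 - p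

theorem bw_w1 {E : Type} [Fintype E] (p : ℝ) (x : E → Bool) : bw p x = ∏ e, w1 p (x e) := rfl

theorem union_aux {E : Type} [Fintype E] [DecidableEq E] (R : ℕ) (q : ℝ) (F : (E → Bool) → ℝ) :
    bex q (fun x : E × Fin R → Bool => F (fun e => decide (∃ i, x (e, i) = true))) =
      bex (1 - (1 - q) ^ R) F := by
  have h0 : bex q (fun x : E × Fin R → Bool => F (fun e => decide (∃ i, x (e, i) = true))) =
      ∑ x : E → (Fin R → Bool), (∏ e, bw q (x e)) * F (fun e => decide (∃ i, x e i = true)) := by
    unfold bex
    rw [← (Equiv.curry E (Fin R) Bool).symm.sum_comp]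
    refine sum_congr rfl fun x _ => ?_
    congr 1
    rw [bw_w1, Fintype.prod_prod_type]
    rfl
  rw [h0, push (bw q) (fun z : Fin R → Bool => decide (∃ i, z i = true)) F]
  unfold bex
  refine sum_congr rfl fun y _ => ?_
  congr 1
  rw [bw_w1]
  refine prod_congr rfl fun e _ => ?_
  have hfalse : ∑ k ∈ univ.filter (fun z : Fin R → Bool => decide (∃ i, z i = true) = false),
      bw q k = (1 - q) ^ R := by
    have : (univ.filter (fun z : Fin R → Bool => decide (∃ i, z i = true) = false)) =
        {fun _ => false} := by
      ext z
      simp only [mem_filter, mem_univ, true_and, decide_eq_false_iff_not, not_exists,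
        Bool.not_eq_true, mem_singleton]
      exact funext_iff.symm
    rw [this, sum_singleton, bw_w1]
    simp [w1]
  cases hy : y e with
  | false => rw [hfalse]; simp [w1]
  | true =>
    have htot : ∑ k : Fin R → Bool, bw q k = 1 := bw_sum q
    have hsplit := sum_filter_add_sum_filter_not (univ : Finset (Fin R → Bool))
      (fun z : Fin R → Bool => decide (∃ i, z i = true) = true) (bw q)
    rw [htot] at hsplit
    have h2 : (univ.filter (fun z : Fin R → Bool => ¬ decide (∃ i, z i = true) = true)) =
        (univ.filter (fun z : Fin R → Bool => decide (∃ i, z i = true) = false)) := by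
      ext z; simp
    rw [h2, hfalse] at hsplit
    simp only [w1, if_true]
    linarith

theorem unionLaw : N943.RC.UnionLaw := by
  intro n R q A
  rw [gnp_eq_bex]
  exact union_aux R q (fun y : Edge n → Bool => if A (ofBool y) then (1 : ℝ) else 0)

theorem bex_mono_prob {E : Type} [Fintype E] [DecidableEq E] (p p' : ℝ) (h0 : 0 ≤ p)
    (h1 : p ≤ p') (h2 : p' ≤ 1) (F : (E → Bool) → ℝ)
    (hF : ∀ x y : E → Bool, (∀ e, x e = true → y e = true) → F x ≤ F y) :
    bex p F ≤ bex p' F := by
  rcases eq_or_lt_of_le (h1.trans h2) with hp | hp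
  · have : p' = p := by linarith
    rw [this]
  set r : ℝ := (p' - p) / (1 - p) with hr
  have h1p : 0 < 1 - p := by linarith
  have hr0 : 0 ≤ r := div_nonneg (by linarith) h1p.le
  have hr1 : r ≤ 1 := by rw [hr, div_le_one h1p]; linarith
  have hprod : (1 - p) * (1 - r) = 1 - p' := by
    rw [hr]; field_simp; ring
  set w : Bool × Bool → ℝ := fun k => w1 p k.1 * w1 r k.2 with hw
  have hwn : ∀ k, 0 ≤ w k := by
    rintro ⟨a, b⟩
    simp only [hw, w1]
    refine mul_nonneg ?_ ?_
    · split_ifs <;> linarith
    · split_ifs <;> linarith
  have e1 : bex p F = ∑ x : E → Bool × Bool, (∏ e, w (x e)) * F (fun e => (x e).1) := by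
    rw [push w (fun k => k.1) F]
    unfold bex
    refine sum_congr rfl fun y _ => ?_
    rw [bw_w1]
    congr 1
    refine prod_congr rfl fun e _ => ?_
    cases y e with
    | false =>
      have : (univ.filter fun k : Bool × Bool => k.1 = false) = {(false, false), (false, true)} := by
        decide
      rw [this, sum_pair (by decide)]
      simp [hw, w1]; ring
    | true =>
      have : (univ.filter fun k : Bool × Bool => k.1 = true) = {(true, false), (true, true)} := by
        decide
      rw [this, sum_pair (by decide)]
      simp [hw, w1]; ring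
  have e2 : bex p' F = ∑ x : E → Bool × Bool, (∏ e, w (x e)) * F (fun e => (x e).1 || (x e).2) := by
    rw [push w (fun k => k.1 || k.2) F]
    unfold bex
    refine sum_congr rfl fun y _ => ?_
    rw [bw_w1]
    congr 1
    refine prod_congr rfl fun e _ => ?_
    cases y e with
    | false =>
      have : (univ.filter fun k : Bool × Bool => (k.1 || k.2) = false) = {(false, false)} := by
        decide
      rw [this, sum_singleton]
      simp [hw, w1]; linarith
    | true =>
      have : (univ.filter fun k : Bool × Bool => (k.1 || k.2) = true) =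
          {(true, false), (true, true), (false, true)} := by
        decide
      rw [this, sum_insert (by decide), sum_pair (by decide)]
      simp [hw, w1]; linarith
  rw [e1, e2]
  refine sum_le_sum fun x _ => mul_le_mul_of_nonneg_left (hF _ _ ?_)
    (prod_nonneg fun e _ => hwn _)
  intro e he
  simp [he]

theorem monoP : N943.RC.MonoP := by
  intro n p p' A h0 h1 h2 hA
  rw [gnp_eq_bex, gnp_eq_bex]
  refine bex_mono_prob p p' h0 h1 h2 _ ?_
  intro x y hxy
  have hle : ofBool x ≤ ofBool y := by
    intro u v huv
    obtain ⟨h, hx⟩ := huv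
    exact ⟨h, hxy _ hx⟩
  by_cases hx : A (ofBool x)
  · have hy := hA _ _ hle hx
    simp [hx, hy]
  · simp only [hx, if_false]
    split_ifs <;> norm_num

end N50.RC
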